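import Pool.Agent.Helper43.EV.Plug

/-!
# EV: the bounds `H1` from the determinant bounds
-/

set_option autoImplicit false

namespace Pool.Agent.Helper74.EV

open Polynomial Pool.Agent.Helper76.Conway.Top Pool.Agent.Helper99.ZB Pool.Agent.Helper43.EV

theorem norm_sinh_sq (x y : ℝ) :
    ‖Complex.sinh ((x : ℂ) + y * Complex.I)‖ ^ 2 = Real.sinh x ^ 2 + Real.sin y ^ 2 := by
  have e : Complex.sinh ((x : ℂ) + y * Complex.I) =
      ((Real.sinh x * Real.cos y : ℝ) : ℂ) + ((Real.cosh x * Real.sin y : ℝ) : ℂ) * Complex.I := by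
    rw [Complex.sinh_add, Complex.sinh_mul_I, Complex.cosh_mul_I]
    push_cast
    ring
  rw [e, ← Complex.normSq_eq_norm_sq, Complex.normSq_add_mul_I]
  have h1 := Real.cosh_sq x
  have h2 := Real.sin_sq_add_cos_sq y
  have h3 : (Real.cosh x * Real.sin y) ^ 2 = (Real.sinh x ^ 2 + 1) * Real.sin y ^ 2 := by
    rw [mul_pow, h1]
  rw [h3, mul_pow]
  linear_combination (Real.sinh x ^ 2) * h2

theorem sin_sq_le {n : ℕ} {y : ℝ} (hy : |y| ≤ 1 / ((n : ℝ) + 1)) :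
    Real.sin y ^ 2 ≤ Real.sin (((n : ℝ) + 1) * y) ^ 2 := by
  have hn : (0 : ℝ) < (n : ℝ) + 1 := by positivity
  have h1 : |((n : ℝ) + 1) * y| ≤ 1 := by
    rw [abs_mul, abs_of_pos hn]
    rw [le_div_iff₀ hn] at hy
    linarith
  have h2 : |y| ≤ |((n : ℝ) + 1) * y| := by
    rw [abs_mul, abs_of_pos hn]
    have : 0 ≤ |y| := abs_nonneg y
    have : (0 : ℝ) ≤ n := Nat.cast_nonneg n
    nlinarith
  have hpi := Real.pi_gt_three
  have h3 : Real.sin |y| ≤ Real.sin |((n : ℝ) + 1) * y| :=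
    Real.sin_le_sin_of_le_of_le_pi_div_two (by have := abs_nonneg y; linarith) (by linarith) h2
  have h4 : 0 ≤ Real.sin |y| := Real.sin_nonneg_of_nonneg_of_le_pi (abs_nonneg y) (by linarith)
  have h5 : ∀ u : ℝ, Real.sin |u| ^ 2 = Real.sin u ^ 2 := by
    intro u
    rcases abs_choice u with h | h
    · rw [h]
    · rw [h, Real.sin_neg, neg_sq]
  rw [← h5 y, ← h5 (((n : ℝ) + 1) * y)]
  exact pow_le_pow_left₀ h4 h3 2

section U

variable {x y : ℝ}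

theorem norm_s (x y : ℝ) : ‖Complex.exp (-((x : ℂ) + y * Complex.I))‖ = Real.exp (-x) := by
  rw [Complex.norm_exp]
  congr 1
  simp

theorem s_inv_sub (φ : ℂ) : (Complex.exp (-φ))⁻¹ - Complex.exp (-φ) = 2 * Complex.sinh φ := by
  rw [Complex.exp_neg, inv_inv, ← Complex.exp_neg, Complex.sinh]
  ring

theorem U_upper (hx : 0 < x) (n : ℕ) :
    ‖U (Complex.exp (-((x : ℂ) + y * Complex.I))) n‖ ≤ ((n : ℝ) + 1) * Real.exp (n * x) := by
  obtain ⟨s, hs⟩ : ∃ s, s = Complex.exp (-((x : ℂ) + y * Complex.I)) := ⟨_, rfl⟩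
  have hns : ‖s‖ = Real.exp (-x) := by rw [hs]; exact norm_s x y
  have h1 : ‖s‖ < 1 := by rw [hns, ← Real.exp_zero]; exact Real.exp_lt_exp.2 (by linarith)
  have h0 : s ≠ 0 := by rw [hs]; exact Complex.exp_ne_zero _
  rw [← hs]
  have hq : (1 : ℂ) - s ^ 2 ≠ 0 := by
    intro h
    have h2 : ‖s ^ 2‖ = 1 := by rw [← sub_eq_zero.1 h]; simp
    rw [norm_pow] at h2
    exact absurd h2 (pow_lt_one₀ (norm_nonneg _) h1 (by norm_num)).ne
  have e : U s n = (∑ j ∈ Finset.range (n + 1), (s ^ 2) ^ j) / s ^ n := by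
    unfold U
    have := geom_sum_mul_neg (s ^ 2) (n + 1)
    rw [← pow_mul] at this
    rw [← this]
    have hp : s ^ n ≠ 0 := pow_ne_zero _ h0
    field_simp
  rw [e, norm_div, norm_pow, hns]
  have h2 : ‖∑ j ∈ Finset.range (n + 1), (s ^ 2) ^ j‖ ≤ (n : ℝ) + 1 := by
    calc ‖∑ j ∈ Finset.range (n + 1), (s ^ 2) ^ j‖ ≤ ∑ j ∈ Finset.range (n + 1), ‖(s ^ 2) ^ j‖ :=
          norm_sum_le _ _
      _ ≤ ∑ _j ∈ Finset.range (n + 1), (1 : ℝ) := by
          refine Finset.sum_le_sum fun j _ => ?_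
          rw [norm_pow, norm_pow]
          exact pow_le_one₀ (by positivity) (pow_le_one₀ (norm_nonneg _) h1.le)
      _ = (n : ℝ) + 1 := by simp
  have h3 : Real.exp (-x) ^ n = (Real.exp (n * x))⁻¹ := by
    rw [← Real.exp_nat_mul, ← Real.exp_neg]
    congr 1
    ring
  rw [h3, div_inv_eq_mul]
  exact mul_le_mul_of_nonneg_right h2 (Real.exp_pos _).le

theorem U_lower (hx : 0 < x) (n : ℕ) (hy : |y| ≤ 1 / ((n : ℝ) + 1)) :
    1 ≤ ‖U (Complex.exp (-((x : ℂ) + y * Complex.I))) n‖ := by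
  obtain ⟨φ, hφ⟩ : ∃ φ, φ = (x : ℂ) + y * Complex.I := ⟨_, rfl⟩
  obtain ⟨s, hs⟩ : ∃ s, s = Complex.exp (-φ) := ⟨_, rfl⟩
  rw [← hφ, ← hs]
  have hns : ‖s‖ = Real.exp (-x) := by rw [hs, hφ]; exact norm_s x y
  have h1 : ‖s‖ < 1 := by rw [hns, ← Real.exp_zero]; exact Real.exp_lt_exp.2 (by linarith)
  have h0 : s ≠ 0 := by rw [hs]; exact Complex.exp_ne_zero _
  have hq : (1 : ℂ) - s ^ 2 ≠ 0 := by
    intro h
    have h2 : ‖s ^ 2‖ = 1 := by rw [← sub_eq_zero.1 h]; simp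
    rw [norm_pow] at h2
    exact absurd h2 (pow_lt_one₀ (norm_nonneg _) h1 (by norm_num)).ne
  have e1 : s⁻¹ - s = 2 * Complex.sinh φ := by
    rw [hs]
    exact s_inv_sub φ
  have e2 : (s ^ (n + 1))⁻¹ - s ^ (n + 1) = 2 * Complex.sinh (((n : ℂ) + 1) * φ) := by
    have : s ^ (n + 1) = Complex.exp (-(((n : ℂ) + 1) * φ)) := by
      rw [hs, ← Complex.exp_nat_mul]
      congr 1
      push_cast
      ring
    rw [this]
    exact s_inv_sub _
  have e3 : U s n * (s⁻¹ - s) = (s ^ (n + 1))⁻¹ - s ^ (n + 1) := by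
    unfold U
    have hp : s ^ n ≠ 0 := pow_ne_zero _ h0
    field_simp
    ring
  rw [e1, e2] at e3
  have e4 : ‖U s n‖ * ‖Complex.sinh φ‖ = ‖Complex.sinh (((n : ℂ) + 1) * φ)‖ := by
    rw [← norm_mul]
    congr 1
    linear_combination e3 / 2
  have e5 : ((n : ℂ) + 1) * φ = ((((n : ℝ) + 1) * x : ℝ) : ℂ) +
      ((((n : ℝ) + 1) * y : ℝ) : ℂ) * Complex.I := by
    rw [hφ]
    push_cast
    ring
  have h6 := norm_sinh_sq (((n : ℝ) + 1) * x) (((n : ℝ) + 1) * y)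
  rw [← e5] at h6
  have h7 := norm_sinh_sq x y
  rw [← hφ] at h7
  have h8 : Real.sinh x ^ 2 ≤ Real.sinh (((n : ℝ) + 1) * x) ^ 2 := by
    have h9 : Real.sinh x ≤ Real.sinh (((n : ℝ) + 1) * x) := by
      rw [Real.sinh_le_sinh]
      have : (0 : ℝ) ≤ n := Nat.cast_nonneg n
      nlinarith
    exact pow_le_pow_left₀ (Real.sinh_nonneg_iff.2 hx.le) h9 2
  have h10 := sin_sq_le hy
  have h11 : ‖Complex.sinh φ‖ ^ 2 ≤ ‖Complex.sinh (((n : ℂ) + 1) * φ)‖ ^ 2 := by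
    rw [h6, h7]
    linarith
  have h12 : ‖Complex.sinh φ‖ ≤ ‖Complex.sinh (((n : ℂ) + 1) * φ)‖ :=
    (pow_le_pow_iff_left₀ (norm_nonneg _) (norm_nonneg _) (by norm_num)).1 h11
  have h13 : 0 < ‖Complex.sinh φ‖ := by
    have h14 : 0 < ‖Complex.sinh φ‖ ^ 2 := by
      rw [h7]
      have : 0 < Real.sinh x := Real.sinh_pos_iff.2 hx
      positivity
    rcases (norm_nonneg (Complex.sinh φ)).lt_or_eq with h | h
    · exact h
    · rw [← h] at h14
      norm_num at h14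
  rw [← e4] at h12
  by_contra hlt
  push Not at hlt
  have : ‖U s n‖ * ‖Complex.sinh φ‖ < 1 * ‖Complex.sinh φ‖ := mul_lt_mul_of_pos_right hlt h13
  linarith

end U

theorem ph1 {G : ℕ → Type} [∀ n, Group (G n)] {sg : ∀ n, ℕ → G n} {N : ∀ n, G n → ℤ[X]}
    (hDB : DB) (h : Mk G sg N) : PH1 sg N := by
  intro n Φ hΦ
  obtain ⟨de, hde, th, hth, hD⟩ := hDB n Φ hΦ
  have hn : (0 : ℝ) < (n : ℝ) + 1 := by positivity
  have hcosh : 1 ≤ Real.cosh Φ := Real.one_le_cosh Φ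
  refine ⟨min th (1 / ((n : ℝ) + 1)), lt_min hth (by positivity),
    de ^ n / ((2 * Real.cosh Φ) ^ n * (((n : ℝ) + 1) * Real.exp (n * Φ))), by positivity,
    2 ^ n * (max 1 Φ) ^ n, by positivity, ?_⟩
  intro w hw hf p P hP x y hx hxΦ hy
  obtain ⟨φ, hφ⟩ : ∃ φ, φ = (x : ℂ) + y * Complex.I := ⟨_, rfl⟩
  obtain ⟨s, hs⟩ : ∃ s, s = Complex.exp (-φ) := ⟨_, rfl⟩
  have hns : ‖s‖ = Real.exp (-x) := by rw [hs, hφ]; exact norm_s x y
  have h1 : ‖s‖ < 1 := by rw [hns, ← Real.exp_zero]; exact Real.exp_lt_exp.2 (by linarith)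
  have h0 : s ≠ 0 := by rw [hs]; exact Complex.exp_ne_zero _
  obtain ⟨hd1, hd2⟩ := hD x y hx hxΦ (hy.trans (min_le_left _ _)) w hw hf
  have hU1 := U_lower hx n (hy.trans (min_le_right _ _))
  have hU2 := U_upper (y := y) hx n
  rw [← hφ, ← hs] at hd1 hd2 hU1 hU2
  rw [← hφ]
  have e := eval_eq h h0 h1 n w hw
  have ez : s⁻¹ - s = 2 * Complex.sinh φ := by
    rw [hs]
    exact s_inv_sub φ
  rw [hP.ev, ez] at e
  have e4 : (2 * Complex.sinh φ) ^ 2 = 4 * Complex.sinh φ ^ 2 := by ring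
  rw [e4] at e
  obtain ⟨A, hA⟩ : ∃ A, A = ‖aeval (4 * Complex.sinh φ ^ 2) P‖ := ⟨_, rfl⟩
  obtain ⟨D, hDd⟩ : ∃ D, D = ‖Matrix.det (1 - W s n w)‖ := ⟨_, rfl⟩
  obtain ⟨u, hu⟩ : ∃ u, u = ‖U s n‖ := ⟨_, rfl⟩
  obtain ⟨Z, hZ⟩ : ∃ Z, Z = ‖2 * Complex.sinh φ‖ := ⟨_, rfl⟩
  have hA0 : 0 ≤ A := by rw [hA]; exact norm_nonneg _
  have e5 : Z ^ p * A * Real.exp (-x) ^ w.length * u = D := by
    rw [hZ, hA, hDd, hu, ← hns, ← norm_pow, ← norm_pow, ← norm_mul, ← norm_mul, ← norm_mul, e]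
  rw [← hDd] at hd1 hd2
  rw [← hu] at hU1 hU2
  rw [← hA]
  have hexp : Real.exp (-x) ^ w.length * Real.exp (w.length * x) = 1 := by
    rw [← Real.exp_nat_mul, ← Real.exp_add]
    simp
  have e6 : Z ^ p * A * u = D * Real.exp (w.length * x) := by
    rw [← e5]
    linear_combination (-(Z ^ p * A * u)) * hexp
  -- bounds of `Z`
  have hsq := norm_sinh_sq x y
  rw [← hφ] at hsq
  have hZ2 : Z = 2 * ‖Complex.sinh φ‖ := by
    rw [hZ, norm_mul]
    simp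
  have hZlo : 2 * x ≤ Z := by
    rw [hZ2]
    have h2 : x ^ 2 ≤ ‖Complex.sinh φ‖ ^ 2 := by
      rw [hsq]
      have h3 : x ≤ Real.sinh x := Real.self_le_sinh_iff.2 hx.le
      have h4 : x ^ 2 ≤ Real.sinh x ^ 2 := pow_le_pow_left₀ hx.le h3 2
      have h5 := sq_nonneg (Real.sin y)
      linarith
    have h3 : x ≤ ‖Complex.sinh φ‖ :=
      (pow_le_pow_iff_left₀ hx.le (norm_nonneg _) (by norm_num)).1 h2
    linarith
  have hZup : Z ≤ 2 * Real.cosh Φ := by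
    rw [hZ2]
    have h2 : ‖Complex.sinh φ‖ ^ 2 ≤ Real.cosh Φ ^ 2 := by
      rw [hsq]
      have h3 := Real.sin_sq_le_one y
      have h4 := Real.cosh_sq x
      have h5 : Real.cosh x ≤ Real.cosh Φ := by
        rw [Real.cosh_le_cosh, abs_of_pos hx, abs_of_pos hΦ]
        exact hxΦ
      have h6 : Real.cosh x ^ 2 ≤ Real.cosh Φ ^ 2 :=
        pow_le_pow_left₀ (Real.cosh_pos x).le h5 2
      linarith
    have h3 : ‖Complex.sinh φ‖ ≤ Real.cosh Φ :=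
      (pow_le_pow_iff_left₀ (norm_nonneg _) (Real.cosh_pos Φ).le (by norm_num)).1 h2
    linarith
  have hZ0 : 0 < Z := by linarith
  have hZp1 : Z ^ p ≤ (2 * Real.cosh Φ) ^ n :=
    calc Z ^ p ≤ (2 * Real.cosh Φ) ^ p := pow_le_pow_left₀ hZ0.le hZup p
      _ ≤ (2 * Real.cosh Φ) ^ n := pow_le_pow_right₀ (by linarith) hP.low
  have hZp2 : x ^ n ≤ (max 1 Φ) ^ n * Z ^ p := by
    have h2 : x ^ p ≤ Z ^ p := pow_le_pow_left₀ hx.le (by linarith) p
    have h3 : x ^ (n - p) ≤ (max 1 Φ) ^ n :=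
      calc x ^ (n - p) ≤ (max 1 Φ) ^ (n - p) :=
            pow_le_pow_left₀ hx.le (hxΦ.trans (le_max_right _ _)) _
        _ ≤ (max 1 Φ) ^ n := pow_le_pow_right₀ (le_max_left _ _) (by omega)
    calc x ^ n = x ^ (n - p) * x ^ p := by
          rw [← pow_add, Nat.sub_add_cancel hP.low]
      _ ≤ (max 1 Φ) ^ n * Z ^ p := mul_le_mul h3 h2 (by positivity) (by positivity)
  have hE : 0 < Real.exp (w.length * x) := Real.exp_pos _
  have hup : u ≤ ((n : ℝ) + 1) * Real.exp (n * Φ) := by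
    refine hU2.trans ?_
    refine mul_le_mul_of_nonneg_left ?_ hn.le
    rw [Real.exp_le_exp]
    exact mul_le_mul_of_nonneg_left hxΦ (Nat.cast_nonneg n)
  constructor
  · have h2 : (de * x) ^ n * Real.exp (w.length * x) ≤
        ((2 * Real.cosh Φ) ^ n * (((n : ℝ) + 1) * Real.exp (n * Φ))) * A := by
      calc (de * x) ^ n * Real.exp (w.length * x) ≤ D * Real.exp (w.length * x) :=
            mul_le_mul_of_nonneg_right hd1 hE.le
        _ = Z ^ p * u * A := by rw [← e6]; ring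
        _ ≤ ((2 * Real.cosh Φ) ^ n * (((n : ℝ) + 1) * Real.exp (n * Φ))) * A := by
            refine mul_le_mul_of_nonneg_right ?_ hA0
            exact mul_le_mul hZp1 hup (by linarith) (by positivity)
    have h3 : 0 < (2 * Real.cosh Φ) ^ n * (((n : ℝ) + 1) * Real.exp (n * Φ)) := by positivity
    rw [div_mul_eq_mul_div, div_mul_eq_mul_div, div_le_iff₀ h3, ← mul_pow]
    linarith
  · have h2 : Z ^ p * A ≤ 2 ^ n * Real.exp (w.length * x) := by
      calc Z ^ p * A = Z ^ p * A * 1 := by ring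
        _ ≤ Z ^ p * A * u := mul_le_mul_of_nonneg_left hU1 (by positivity)
        _ = D * Real.exp (w.length * x) := e6
        _ ≤ 2 ^ n * Real.exp (w.length * x) := mul_le_mul_of_nonneg_right hd2 hE.le
    rw [div_mul_eq_mul_div, le_div_iff₀ (by positivity)]
    calc A * x ^ n ≤ A * ((max 1 Φ) ^ n * Z ^ p) := mul_le_mul_of_nonneg_left hZp2 hA0
      _ = (max 1 Φ) ^ n * (Z ^ p * A) := by ring
      _ ≤ (max 1 Φ) ^ n * (2 ^ n * Real.exp (w.length * x)) :=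
          mul_le_mul_of_nonneg_left h2 (by positivity)
      _ = 2 ^ n * (max 1 Φ) ^ n * Real.exp (w.length * x) := by ring

end Pool.Agent.Helper74.EV
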